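import Mathlib

/-!
# Symmetric bihomogeneous polynomials in two points

For two points `x`, `x'` put `pr x x' (i, j) = x i * x' j + x j * x' i`. If `2` is invertible and
`u`, `v` are forms of degree `d`, then `u(x) v(x') + v(x) u(x')` is a form of degree `d` in the
`pr x x' (i, j)`.
-/

namespace Pool.Agent.Helper47.NI

open MvPolynomial

universe w

/-- The symmetric product of two points. -/
def pr {A : Type*} [CommRing A] {n : ℕ} (x x' : Fin n → A) : Fin n × Fin n → A :=
  fun p => x p.1 * x' p.2 + x p.2 * x' p.1

/-- The antisymmetric product of two points. -/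
def pa {A : Type*} [CommRing A] {n : ℕ} (x x' : Fin n → A) : Fin n × Fin n → A :=
  fun p => x p.1 * x' p.2 - x p.2 * x' p.1

theorem pa_mul_pa {A : Type*} [CommRing A] {n : ℕ} (x x' : Fin n → A) (a b c d : Fin n) :
    pa x x' (a, b) * pa x x' (c, d) =
      pr x x' (a, d) * pr x x' (b, c) - pr x x' (a, c) * pr x x' (b, d) := by
  simp only [pa, pr]
  ring

variable {R : Type*} [CommRing R] {n : ℕ}

/-- The auxiliary statement for products of linear factors. -/
theorem exists_list (r : R) (hr : 2 * r = 1) (l : List (Fin n × Fin n)) :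
    ∃ (P : MvPolynomial (Fin n × Fin n) R) (B : Fin n × Fin n → MvPolynomial (Fin n × Fin n) R),
      P.IsHomogeneous l.length ∧ (∀ p, (B p).IsHomogeneous (l.length - 1)) ∧
      (l = [] → ∀ p, B p = 0) ∧
      ∀ (A : Type w) [CommRing A] [Algebra R A] (x x' : Fin n → A),
        (l.map fun p => x p.1 * x' p.2).prod =
          aeval (pr x x') P + ∑ p, aeval (pr x x') (B p) * pa x x' p ∧
        (l.map fun p => x p.2 * x' p.1).prod =
          aeval (pr x x') P - ∑ p, aeval (pr x x') (B p) * pa x x' p := by
  induction l with
  | nil =>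
    refine ⟨1, fun _ => 0, isHomogeneous_one _ _, fun p => isHomogeneous_zero _ _ _,
      fun _ _ => rfl, fun A _ _ x x' => ?_⟩
    simp
  | cons q l ih =>
    obtain ⟨P, B, hP, hB, hnil, hval⟩ := ih
    obtain ⟨c, d⟩ := q
    refine ⟨C r * (X (c, d) * P + ∑ p : Fin n × Fin n,
        B p * (X (p.1, d) * X (p.2, c) - X (p.1, c) * X (p.2, d))),
      fun p => C r * ((if p = (c, d) then P else 0) + X (c, d) * B p), ?_, ?_,
      fun h => by simp at h, fun A _ _ x x' => ?_⟩
    · have h1 : (X (c, d) * P : MvPolynomial (Fin n × Fin n) R).IsHomogeneous (l.length + 1) := by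
        have := (isHomogeneous_X R (c, d)).mul hP
        rwa [add_comm] at this
      have h2 : ∀ p : Fin n × Fin n, (B p * (X (p.1, d) * X (p.2, c) - X (p.1, c) * X (p.2, d)) :
          MvPolynomial (Fin n × Fin n) R).IsHomogeneous (l.length + 1) := by
        intro p
        rcases Nat.eq_zero_or_pos l.length with h0 | h0
        · rw [hnil (List.length_eq_zero_iff.1 h0) p, zero_mul]
          exact isHomogeneous_zero _ _ _
        · have h3 : (X (p.1, d) * X (p.2, c) - X (p.1, c) * X (p.2, d) :
              MvPolynomial (Fin n × Fin n) R).IsHomogeneous 2 :=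
            ((isHomogeneous_X R _).mul (isHomogeneous_X R _)).sub
              ((isHomogeneous_X R _).mul (isHomogeneous_X R _))
          have h4 := (hB p).mul h3
          have h5 : l.length - 1 + 2 = l.length + 1 := by omega
          rwa [h5] at h4
      have h6 := (isHomogeneous_C (Fin n × Fin n) r).mul
        (h1.add (IsHomogeneous.sum Finset.univ _ _ fun p _ => h2 p))
      rw [zero_add] at h6
      exact h6
    · intro p
      have h1 : (if p = (c, d) then P else 0 :
          MvPolynomial (Fin n × Fin n) R).IsHomogeneous l.length := by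
        split_ifs
        · exact hP
        · exact isHomogeneous_zero _ _ _
      have h2 : (X (c, d) * B p : MvPolynomial (Fin n × Fin n) R).IsHomogeneous l.length := by
        rcases Nat.eq_zero_or_pos l.length with h0 | h0
        · rw [hnil (List.length_eq_zero_iff.1 h0) p, mul_zero]
          exact isHomogeneous_zero _ _ _
        · have h4 := (isHomogeneous_X R (c, d)).mul (hB p)
          have h5 : 1 + (l.length - 1) = l.length := by omega
          rwa [h5] at h4
      have h6 := (isHomogeneous_C (Fin n × Fin n) r).mul (h1.add h2)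
      rw [zero_add] at h6
      exact h6
    · obtain ⟨e1, e2⟩ := hval A x x'
      have hr' : (2 : A) * algebraMap R A r = 1 := by
        have := congrArg (algebraMap R A) hr
        rwa [map_mul, map_one, map_ofNat] at this
      have k1 : x c * x' d = algebraMap R A r * (pr x x' (c, d) + pa x x' (c, d)) := by
        simp only [pr, pa]
        linear_combination (-(x c * x' d)) * hr'
      have k2 : x d * x' c = algebraMap R A r * (pr x x' (c, d) - pa x x' (c, d)) := by
        simp only [pr, pa]
        linear_combination (-(x d * x' c)) * hr'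
      have k3 : aeval (pr x x') (C r * (X (c, d) * P + ∑ p : Fin n × Fin n,
          B p * (X (p.1, d) * X (p.2, c) - X (p.1, c) * X (p.2, d)))) =
          algebraMap R A r * (pr x x' (c, d) * aeval (pr x x') P +
            (∑ p, aeval (pr x x') (B p) * pa x x' p) * pa x x' (c, d)) := by
        simp only [map_mul, map_add, map_sum, map_sub, aeval_X, aeval_C]
        congr 2
        rw [Finset.sum_mul]
        refine Finset.sum_congr rfl fun p _ => ?_
        rw [mul_assoc, ← pa_mul_pa x x' p.1 p.2 c d]
      have k4 : ∑ p, aeval (pr x x') (C r * ((if p = (c, d) then P else 0) + X (c, d) * B p)) *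
          pa x x' p = algebraMap R A r * (aeval (pr x x') P * pa x x' (c, d) +
            pr x x' (c, d) * ∑ p, aeval (pr x x') (B p) * pa x x' p) := by
        have k5 : ∀ p : Fin n × Fin n, aeval (pr x x') (C r * ((if p = (c, d) then P else 0) +
            X (c, d) * B p)) * pa x x' p = (if p = (c, d) then algebraMap R A r *
              (aeval (pr x x') P * pa x x' p) else 0) +
              algebraMap R A r * (pr x x' (c, d) * (aeval (pr x x') (B p) * pa x x' p)) := by
          intro p
          simp only [map_mul, map_add, aeval_X, aeval_C]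
          split_ifs
          · ring
          · simp only [map_zero]
            ring
        rw [Finset.sum_congr rfl fun p _ => k5 p, Finset.sum_add_distrib,
          Finset.sum_ite_eq' Finset.univ (c, d), if_pos (Finset.mem_univ _),
          ← Finset.mul_sum, ← Finset.mul_sum]
        ring
      constructor
      · rw [List.map_cons, List.prod_cons, e1, k3, k4, k1]
        ring
      · rw [List.map_cons, List.prod_cons, e2, k3, k4, k2]
        ring

theorem prod_map_toMultiset {A : Type*} [CommRing A] (a : Fin n →₀ ℕ) (x : Fin n → A) :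
    ((Finsupp.toMultiset a).map x).prod = ∏ i, x i ^ a i := by
  rw [Finsupp.toMultiset_map, Finsupp.prod_toMultiset, Finsupp.prod_mapDomain_index
    (fun _ => pow_zero _) (fun _ _ _ => pow_add _ _ _), Finsupp.prod_fintype _ _
    (fun _ => pow_zero _)]

/-- Lemma H for monomials. -/
theorem exists_mono (r : R) (hr : 2 * r = 1) (a b : Fin n →₀ ℕ)
    (hab : a.degree = b.degree) :
    ∃ H : MvPolynomial (Fin n × Fin n) R, H.IsHomogeneous a.degree ∧
      ∀ (A : Type w) [CommRing A] [Algebra R A] (x x' : Fin n → A),
        aeval (pr x x') H = (∏ i, x i ^ a i) * (∏ i, x' i ^ b i) +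
          (∏ i, x i ^ b i) * (∏ i, x' i ^ a i) := by
  have hlen : ∀ a : Fin n →₀ ℕ, (Finsupp.toMultiset a).toList.length = a.degree := by
    intro a
    rw [Multiset.length_toList, Finsupp.card_toMultiset]
    rfl
  obtain ⟨P, B, hP, -, -, hval⟩ := exists_list r hr
    ((Finsupp.toMultiset a).toList.zip (Finsupp.toMultiset b).toList)
  have hl : ((Finsupp.toMultiset a).toList.zip (Finsupp.toMultiset b).toList).length =
      a.degree := by
    rw [List.length_zip, hlen, hlen, ← hab, min_self]
  rw [hl] at hP
  refine ⟨P + P, hP.add hP, fun A _ _ x x' => ?_⟩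
  obtain ⟨e1, e2⟩ := hval A x x'
  have key : ∀ y y' : Fin n → A,
      (((Finsupp.toMultiset a).toList.zip (Finsupp.toMultiset b).toList).map
        fun p => y p.1 * y' p.2).prod = (∏ i, y i ^ a i) * (∏ i, y' i ^ b i) := by
    intro y y'
    rw [List.prod_map_mul]
    have h1 : ((Finsupp.toMultiset a).toList.zip (Finsupp.toMultiset b).toList).map
        (fun p => y p.1) = (Finsupp.toMultiset a).toList.map y := by
      rw [← List.map_fst_zip (l₁ := (Finsupp.toMultiset a).toList)
        (l₂ := (Finsupp.toMultiset b).toList) (by rw [hlen, hlen, hab]), List.map_map]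
      rw [List.map_fst_zip (by rw [hlen, hlen, hab])]
      rfl
    have h2 : ((Finsupp.toMultiset a).toList.zip (Finsupp.toMultiset b).toList).map
        (fun p => y' p.2) = (Finsupp.toMultiset b).toList.map y' := by
      rw [← List.map_snd_zip (l₁ := (Finsupp.toMultiset a).toList)
        (l₂ := (Finsupp.toMultiset b).toList) (by rw [hlen, hlen, hab]), List.map_map]
      rw [List.map_snd_zip (by rw [hlen, hlen, hab])]
      rfl
    rw [h1, h2, ← prod_map_toMultiset a y, ← prod_map_toMultiset b y',
      ← Multiset.prod_coe, ← Multiset.prod_coe, ← Multiset.map_coe, ← Multiset.map_coe,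
      Multiset.coe_toList, Multiset.coe_toList]
  have e3 := key x x'
  have e4 := key x' x
  have e5 : (((Finsupp.toMultiset a).toList.zip (Finsupp.toMultiset b).toList).map
        fun p => x' p.1 * x p.2) =
      (((Finsupp.toMultiset a).toList.zip (Finsupp.toMultiset b).toList).map
        fun p => x p.2 * x' p.1) := List.map_congr_left fun p _ => mul_comm _ _
  rw [e5] at e4
  rw [e1] at e3
  rw [e2] at e4
  rw [map_add]
  linear_combination e3 + e4

/-- Lemma H. -/
theorem exists_sym (r : R) (hr : 2 * r = 1) (d : ℕ) (u v : MvPolynomial (Fin n) R)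
    (hu : u.IsHomogeneous d) (hv : v.IsHomogeneous d) :
    ∃ H : MvPolynomial (Fin n × Fin n) R, H.IsHomogeneous d ∧
      ∀ (A : Type w) [CommRing A] [Algebra R A] (x x' : Fin n → A),
        aeval (pr x x') H = aeval x u * aeval x' v + aeval x v * aeval x' u := by
  classical
  have key : ∀ a ∈ u.support, ∀ b ∈ v.support,
      ∃ H : MvPolynomial (Fin n × Fin n) R, H.IsHomogeneous d ∧
      ∀ (A : Type w) [CommRing A] [Algebra R A] (x x' : Fin n → A),
        aeval (pr x x') H = (∏ i, x i ^ a i) * (∏ i, x' i ^ b i) +
          (∏ i, x i ^ b i) * (∏ i, x' i ^ a i) := by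
    intro a ha b hb
    have h1 : a.degree = d := by
      by_contra h
      exact mem_support_iff.1 ha (hu.coeff_eq_zero h)
    have h2 : b.degree = d := by
      by_contra h
      exact mem_support_iff.1 hb (hv.coeff_eq_zero h)
    obtain ⟨H, hH, hval⟩ := exists_mono r hr a b (h1.trans h2.symm)
    rw [h1] at hH
    exact ⟨H, hH, hval⟩
  choose! H hH hval using key
  refine ⟨∑ a ∈ u.support, ∑ b ∈ v.support, C (coeff a u * coeff b v) * H a b, ?_, ?_⟩
  · refine IsHomogeneous.sum _ _ _ fun a ha => IsHomogeneous.sum _ _ _ fun b hb => ?_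
    have := (isHomogeneous_C (Fin n × Fin n) (coeff a u * coeff b v)).mul (hH a ha b hb)
    rwa [zero_add] at this
  · intro A _ _ x x'
    have e : ∀ (w : MvPolynomial (Fin n) R) (y : Fin n → A), aeval y w =
        ∑ a ∈ w.support, algebraMap R A (coeff a w) * ∏ i, y i ^ a i := by
      intro w y
      rw [aeval_def, eval₂_eq']
    rw [e u x, e v x', e v x, e u x']
    simp only [map_sum, map_mul, aeval_C, Finset.sum_mul_sum]
    rw [Finset.sum_comm (s := v.support) (t := u.support), ← Finset.sum_add_distrib]
    refine Finset.sum_congr rfl fun a ha => ?_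
    rw [← Finset.sum_add_distrib]
    refine Finset.sum_congr rfl fun b hb => ?_
    rw [hval a ha b hb]
    ring

end Pool.Agent.Helper47.NI
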