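import Mathlib
import Pool.Agent.Helper47.NI.Sym

/-!
# Two double coverings

The set `S` of pairs `(x, y)` of nonzero vectors is a cone over a variety with two projections of
degree two: over `y` with `G_y ≠ 0` the two points are given by the matrix
`G_y (i, j) = x i * x' j + x j * x' i` of forms of degree `c` in `y`; the same on the other side.
-/

namespace Pool.Agent.Helper47.NI

open MvPolynomial

universe u

/-- Two double coverings. -/
structure Dbl (k : Type u) [Field k] (n c : ℕ) where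
  /-- the symmetric product of the two points over `y` -/
  G : Fin n × Fin n → MvPolynomial (Fin n) k
  /-- the symmetric product of the two points over `x` -/
  G' : Fin n × Fin n → MvPolynomial (Fin n) k
  hG : ∀ p, (G p).IsHomogeneous c
  hG' : ∀ p, (G' p).IsHomogeneous c
  /-- the pairs of representatives of the points -/
  S : Set ((Fin n → k) × (Fin n → k))
  ne1 : ∀ {x y}, (x, y) ∈ S → x ≠ 0
  ne2 : ∀ {x y}, (x, y) ∈ S → y ≠ 0
  sx : ∀ {x y}, (x, y) ∈ S → (∃ p, eval y (G p) ≠ 0) →
    ∃ x', (x', y) ∈ S ∧ ∀ p, eval y (G p) = pr x x' p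
  sy : ∀ {x y}, (x, y) ∈ S → (∃ p, eval x (G' p) ≠ 0) →
    ∃ y', (x, y') ∈ S ∧ ∀ p, eval x (G' p) = pr y y' p
  ex : ∀ {y}, y ≠ 0 → (∃ p, eval y (G p) ≠ 0) → ∃ x, (x, y) ∈ S
  ex' : ∀ {x}, x ≠ 0 → (∃ p, eval x (G' p) ≠ 0) → ∃ y, (x, y) ∈ S

namespace Dbl

variable {k : Type u} [Field k] {n c : ℕ}

/-- Exchange the two factors. -/
def swap (D : Dbl k n c) : Dbl k n c where
  G := D.G'
  G' := D.G
  hG := D.hG'
  hG' := D.hG
  S := {z | (z.2, z.1) ∈ D.S}
  ne1 := fun h => D.ne2 h
  ne2 := fun h => D.ne1 h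
  sx := fun h h' => D.sy h h'
  sy := fun h h' => D.sx h h'
  ex := fun h h' => D.ex' h h'
  ex' := fun h h' => D.ex h h'

/-- The fibre over `y` is finite, and so are the fibres through its points. -/
def Good (D : Dbl k n c) (y : Fin n → k) : Prop :=
  (∃ p, eval y (D.G p) ≠ 0) ∧ ∀ x, (x, y) ∈ D.S → ∃ p, eval x (D.G' p) ≠ 0

/-- The points which are not good are of codimension at least two. -/
def Dense (D : Dbl k n c) : Prop :=
  ∀ w : MvPolynomial (Fin n) k, Irreducible w → ∀ F : MvPolynomial (Fin n) k,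
    (∀ y, y ≠ 0 → D.Good y → eval y w = 0 → eval y F = 0) → w ∣ F

/-- The form `h` vanishes at `x` if and only if `g` vanishes at `y`. -/
def Compat (D : Dbl k n c) (h g : MvPolynomial (Fin n) k) : Prop :=
  ∀ x y, (x, y) ∈ D.S → (∃ p, eval y (D.G p) ≠ 0) → (∃ p, eval x (D.G' p) ≠ 0) →
    (eval x h = 0 ↔ eval y g = 0)

theorem null_lite [IsAlgClosed k] {π g : MvPolynomial (Fin n) k} (hπ : Irreducible π)
    (h : ∀ z, eval z π = 0 → eval z g = 0) : π ∣ g := by
  have hp : (Ideal.span {π}).IsPrime := (Ideal.span_singleton_prime hπ.ne_zero).mpr hπ.prime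
  have h1 : g ∈ vanishingIdeal k (zeroLocus k (Ideal.span {π})) := by
    rw [mem_vanishingIdeal_iff]
    intro z hz
    rw [mem_zeroLocus_iff] at hz
    have := h z (by simpa using hz π (Ideal.mem_span_singleton_self π))
    simpa using this
  rw [vanishingIdeal_zeroLocus_eq_radical, hp.radical] at h1
  exact Ideal.mem_span_singleton.mp h1

/-- It is enough that the points which are not good are common zeros of two coprime forms. -/
theorem dense_of_coprime [IsAlgClosed k] (D : Dbl k n c) (F1 F2 : MvPolynomial (Fin n) k)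
    (h12 : IsRelPrime F1 F2)
    (hbad : ∀ y : Fin n → k, (y = 0 ∨ ¬ D.Good y) → eval y F1 = 0 ∧ eval y F2 = 0) : D.Dense := by
  intro w hw F hF
  by_contra hwF
  have key : ∀ A : MvPolynomial (Fin n) k, (∀ y : Fin n → k, (y = 0 ∨ ¬ D.Good y) →
      eval y A = 0) → w ∣ A := by
    intro A hA
    have h1 : w ∣ F * A := by
      refine null_lite hw fun z hz => ?_
      rw [map_mul]
      by_cases hb : z = 0 ∨ ¬ D.Good z
      · rw [hA z hb, mul_zero]
      · rw [not_or, not_not] at hb
        rw [hF z hb.1 hb.2 hz, zero_mul]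
    exact (hw.prime.dvd_or_dvd h1).resolve_left hwF
  exact hw.not_isUnit (h12 (key F1 fun y hy => (hbad y hy).1) (key F2 fun y hy => (hbad y hy).2))

/-- The norm: a form in `y` with the value `u(x) v(x') + v(x) u(x')`. -/
theorem exists_norm (D : Dbl k n c) (h2 : (2 : k) ≠ 0) {d : ℕ} {u v : MvPolynomial (Fin n) k}
    (hu : u.IsHomogeneous d) (hv : v.IsHomogeneous d) :
    ∃ F : MvPolynomial (Fin n) k, F.IsHomogeneous (c * d) ∧
      ∀ x x' y : Fin n → k, (∀ p, eval y (D.G p) = pr x x' p) →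
        eval y F = eval x u * eval x' v + eval x v * eval x' u := by
  obtain ⟨H, hH, hval⟩ := exists_sym (2 : k)⁻¹ (mul_inv_cancel₀ h2) d u v hu hv
  refine ⟨aeval D.G H, hH.aeval D.G D.hG, fun x x' y hy => ?_⟩
  have e : ∀ (z : Fin n → k) (p : MvPolynomial (Fin n) k), eval z p = aeval z p :=
    fun z p => by rw [aeval_eq_eval]
  rw [e, e, e, e, e, ← hval k x x', comp_aeval_apply]
  congr 2
  funext p
  rw [← hy p, e]

end Dbl

end Pool.Agent.Helper47.NI
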