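import Mathlib
import Pool.Agent.Helper47.NI.Defs
import Pool.Agent.Helper47.NI.Hom

/-!
# No pair of forms is compatible with two double coverings of degree at least four

`no_compat`: for `c ≥ 4` there are no forms `h`, `g` with `h` squarefree of positive degree, `g`
squarefree, such that `h` vanishes at `x` if and only if `g` vanishes at `y`, for all `(x, y)` on
`S` (with finite fibres).
-/

namespace Pool.Agent.Helper47.NI

open MvPolynomial

universe u

section general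

variable {k : Type u} [Field k] {n : ℕ}

theorem dvd_of_pow {M : Type*} [CommMonoidWithZero M] [UniqueFactorizationMonoid M] {a b : M}
    (ha : a ≠ 0) (H : ∀ w, Prime w → ∀ e, w ^ e ∣ a → w ^ e ∣ b) : a ∣ b :=
  (UniqueFactorizationMonoid.dvd_iff_emultiplicity_le ha).2 fun w hw =>
    emultiplicity_le_emultiplicity_iff.2 (H w hw)

theorem dvd_of_squarefree {M : Type*} [CommMonoidWithZero M] [Nontrivial M]
    [UniqueFactorizationMonoid M] {a b : M}
    (ha : Squarefree a) (H : ∀ w, Irreducible w → w ∣ a → w ∣ b) : a ∣ b := by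
  refine dvd_of_pow ha.ne_zero fun w hw e he => ?_
  rcases Nat.lt_or_ge e 2 with h | h
  · interval_cases e
    · simp
    · rw [pow_one] at he ⊢
      exact H w hw.irreducible he
  · exact absurd (ha w ((pow_two w ▸ pow_dvd_pow w h).trans he)) hw.not_isUnit

theorem exists_irreducible_eval {L : MvPolynomial (Fin n) k} (hL : L ≠ 0) {z : Fin n → k}
    (hz : eval z L = 0) : ∃ w, Irreducible w ∧ w ∣ L ∧ eval z w = 0 := by
  obtain ⟨f, hf, a, ha⟩ := WfDvdMonoid.exists_factors L hL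
  have h1 : eval z f.prod = 0 := by
    have h2 : eval z (a : MvPolynomial (Fin n) k) ≠ 0 := (a.isUnit.map (eval z)).ne_zero
    rw [← ha, map_mul] at hz
    exact (mul_eq_zero.1 hz).resolve_right h2
  rw [map_multiset_prod, Multiset.prod_eq_zero_iff, Multiset.mem_map] at h1
  obtain ⟨w, hw, hw0⟩ := h1
  exact ⟨w, hf w hw, (Multiset.dvd_prod hw).trans (Dvd.intro _ ha), hw0⟩

/-- a linear form -/
noncomputable def lin (a : Fin n → k) : MvPolynomial (Fin n) k := ∑ i, C (a i) * X i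

theorem eval_lin (a z : Fin n → k) : eval z (lin a) = ∑ i, a i * z i := by
  simp [lin]

theorem lin_isHomogeneous (a : Fin n → k) : (lin a).IsHomogeneous 1 :=
  IsHomogeneous.sum _ _ _ fun i _ => by
    simpa using (isHomogeneous_C (Fin n) (a i)).mul (isHomogeneous_X k i)

theorem lin_ne_zero {a : Fin n → k} (ha : a ≠ 0) : lin a ≠ 0 := by
  obtain ⟨i, hi⟩ := Function.ne_iff.1 ha
  intro h
  apply hi
  have h1 := eval_lin a (Pi.single i 1)
  rw [h, map_zero, Finset.sum_eq_single i (fun j _ hj => by simp [hj])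
    (fun h => absurd (Finset.mem_univ i) h)] at h1
  simpa using h1.symm

/-- A linear form which does not vanish at the given points. -/
theorem exists_eta [Infinite k] {ι : Type*} [Fintype ι] (v : ι → Fin n → k) (hv : ∀ i, v i ≠ 0) :
    ∃ η : Fin n → k, ∀ i, eval (v i) (lin η) ≠ 0 := by
  have h1 : ∏ i, lin (v i) ≠ 0 := Finset.prod_ne_zero_iff.2 fun i _ => lin_ne_zero (hv i)
  obtain ⟨η, hη⟩ : ∃ η : Fin n → k, eval η (∏ i, lin (v i)) ≠ 0 := by
    by_contra h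
    push Not at h
    exact h1 (MvPolynomial.funext fun z => by rw [h z, map_zero])
  refine ⟨η, fun i => ?_⟩
  rw [map_prod] at hη
  have h2 := Finset.prod_ne_zero_iff.1 hη i (Finset.mem_univ i)
  rw [eval_lin] at h2 ⊢
  rwa [Finset.sum_congr rfl fun j _ => mul_comm (η j) (v i j)]

theorem dense0 [IsAlgClosed k] {c : ℕ} (hn : 2 ≤ n) (D : Dbl k n c) (hd : D.Dense)
    {F : MvPolynomial (Fin n) k} (hF : ∀ y, y ≠ 0 → D.Good y → eval y F = 0) : F = 0 := by
  by_contra hF0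
  have i0 : Fin n := ⟨0, by omega⟩
  obtain ⟨y0, hy0⟩ : ∃ y0 : Fin n → k, eval y0 F ≠ 0 := by
    by_contra h
    push Not at h
    exact hF0 (MvPolynomial.funext fun z => by rw [h z, map_zero])
  obtain ⟨a, ha, ha0⟩ : ∃ a : Fin n → k, a ≠ 0 ∧ eval y0 (lin a) = 0 := by
    by_cases h1 : y0 ⟨1, by omega⟩ = 0
    · refine ⟨Pi.single ⟨1, by omega⟩ 1, by simp, ?_⟩
      rw [eval_lin, Finset.sum_eq_single ⟨1, by omega⟩ (fun j _ hj => by simp [hj])
        (fun h => absurd (Finset.mem_univ _) h), h1, mul_zero]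
    · refine ⟨Pi.single ⟨0, by omega⟩ (y0 ⟨1, by omega⟩) -
        Pi.single ⟨1, by omega⟩ (y0 ⟨0, by omega⟩), ?_, ?_⟩
      · intro h
        have h2 := congrFun h ⟨0, by omega⟩
        simp [h1] at h2
      · rw [eval_lin]
        simp only [Pi.sub_apply, sub_mul, Finset.sum_sub_distrib]
        rw [Finset.sum_eq_single ⟨0, by omega⟩ (fun j _ hj => by simp [hj])
          (fun h => absurd (Finset.mem_univ _) h), Finset.sum_eq_single ⟨1, by omega⟩
          (fun j _ hj => by simp [hj]) (fun h => absurd (Finset.mem_univ _) h)]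
        simp
        ring
  obtain ⟨w, hw, -, hw0⟩ := exists_irreducible_eval (lin_ne_zero ha) ha0
  obtain ⟨q, hq⟩ := hd w hw F fun y hy hg _ => hF y hy hg
  exact hy0 (by rw [hq, map_mul, hw0, zero_mul])

end general

section norm

variable {k : Type u} [Field k] {n c : ℕ} (D : Dbl k n c)

/-- `N` is the norm of `h`. -/
def IsNorm (h N : MvPolynomial (Fin n) k) : Prop :=
  ∀ x x' y : Fin n → k, (∀ p, eval y (D.G p) = pr x x' p) →
    eval y N = eval x h * eval x' h + eval x h * eval x' h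

variable {D} {h g N M : MvPolynomial (Fin n) k}

theorem compat_symm (hc : D.Compat h g) : D.swap.Compat g h :=
  fun x y hxy h1 h2 => (hc y x hxy h2 h1).symm

theorem eval_norm_of_good (hN : IsNorm D h N) {y : Fin n → k} (hy : y ≠ 0) (hg : D.Good y) :
    ∃ x x', (x, y) ∈ D.S ∧ (x', y) ∈ D.S ∧ (∀ p, eval y (D.G p) = pr x x' p) ∧
      eval y N = eval x h * eval x' h + eval x h * eval x' h := by
  obtain ⟨x, hx⟩ := D.ex hy hg.1
  obtain ⟨x', hx', e⟩ := D.sx hx hg.1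
  exact ⟨x, x', hx, hx', e, hN x x' y e⟩

theorem norm_of_dvd (hd : D.Dense) (hc : D.Compat h g) (hN : IsNorm D h N)
    {w : MvPolynomial (Fin n) k} (hw : Irreducible w) (hwg : w ∣ g) : w ∣ N := by
  refine hd w hw N fun y hy hgood hz => ?_
  obtain ⟨x, x', hx, -, -, e⟩ := eval_norm_of_good hN hy hgood
  obtain ⟨q, rfl⟩ := hwg
  have h1 : eval x h = 0 := (hc x y hx hgood.1 (hgood.2 x hx)).2 (by rw [map_mul, hz, zero_mul])
  rw [e, h1]
  ring

theorem dvd_of_norm (h2 : (2 : k) ≠ 0) (hd : D.Dense) (hc : D.Compat h g) (hN : IsNorm D h N)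
    {w : MvPolynomial (Fin n) k} (hw : Irreducible w) (hwN : w ∣ N) : w ∣ g := by
  refine hd w hw g fun y hy hgood hz => ?_
  obtain ⟨x, x', hx, hx', -, e⟩ := eval_norm_of_good hN hy hgood
  obtain ⟨q, rfl⟩ := hwN
  rw [map_mul, hz, zero_mul, ← two_mul] at e
  rcases mul_eq_zero.1 ((mul_eq_zero.1 e.symm).resolve_left h2) with h3 | h3
  · exact (hc x y hx hgood.1 (hgood.2 x hx)).1 h3
  · exact (hc x' y hx' hgood.1 (hgood.2 x' hx')).1 h3

theorem norm_ne_zero [IsAlgClosed k] (hn : 2 ≤ n) (h2 : (2 : k) ≠ 0) (hd : D.Dense)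
    (hc : D.Compat h g) (hN : IsNorm D h N) (hg : g ≠ 0) : N ≠ 0 := by
  rintro rfl
  refine hg (dense0 hn D hd fun y hy hgood => ?_)
  obtain ⟨x, x', hx, hx', -, e⟩ := eval_norm_of_good hN hy hgood
  rw [map_zero, ← two_mul] at e
  rcases mul_eq_zero.1 ((mul_eq_zero.1 e.symm).resolve_left h2) with h3 | h3
  · exact (hc x y hx hgood.1 (hgood.2 x hx)).1 h3
  · exact (hc x' y hx' hgood.1 (hgood.2 x' hx')).1 h3

/-- A function on the other side which vanishes where `g` does is divisible by `h`. -/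
theorem dvd_other (hd' : D.swap.Dense) (hc : D.Compat h g) (hh : Squarefree h)
    {F : MvPolynomial (Fin n) k}
    (hF : ∀ x y y', (x, y) ∈ D.S → (x, y') ∈ D.S → (∀ p, eval x (D.G' p) = pr y y' p) →
      eval y g = 0 → eval y' g = 0 → eval x F = 0) : h ∣ F := by
  refine dvd_of_squarefree hh fun w hw hwh => hd' w hw F fun x hx hgood hz => ?_
  obtain ⟨y, hy⟩ := D.ex' hx hgood.1
  obtain ⟨y', hy', e⟩ := D.sy hy hgood.1
  obtain ⟨q, rfl⟩ := hwh
  have h0 : eval x (w * q) = 0 := by rw [map_mul, hz, zero_mul]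
  exact hF x y y' hy hy' e ((hc x y hy (hgood.2 y hy) hgood.1).1 h0)
    ((hc x y' hy' (hgood.2 y' hy') hgood.1).1 h0)

theorem exists_quot [Infinite k] {h F : MvPolynomial (Fin n) k} {d e : ℕ} (hh : h.IsHomogeneous d)
    (hh0 : h ≠ 0) (hF : F.IsHomogeneous e) (hd : h ∣ F) :
    ∃ q, F = h * q ∧ q.IsHomogeneous (e - d) := by
  obtain ⟨q, rfl⟩ := hd
  by_cases hq : q = 0
  · exact ⟨q, rfl, hq ▸ isHomogeneous_zero _ _ _⟩
  · obtain ⟨a, b, ha, hb, hab⟩ := hom_factor hF (mul_ne_zero hh0 hq)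
    have h1 : a = d := IsHomogeneous.inj_right ha hh hh0
    refine ⟨q, rfl, ?_⟩
    rwa [show e - d = b by omega]

/-- The main identity. -/
theorem core [IsAlgClosed k] (h2 : (2 : k) ≠ 0) (hn : 2 ≤ n) (hd : D.Dense) (hd' : D.swap.Dense)
    {d1 d2 : ℕ} (hh : h.IsHomogeneous d1) (hg : g.IsHomogeneous d2) (hsh : Squarefree h)
    (hcom : D.Compat h g) (hN : IsNorm D h N) (hM : IsNorm D.swap g M)
    (hMd : M.IsHomogeneous (c * d2)) (η : Fin n → k) :
    ∃ Γ W : MvPolynomial (Fin n) k,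
      (∀ y x x' y1 y2 : Fin n → k, (∀ p, eval y (D.G p) = pr x x' p) →
        (∀ p, eval x (D.G' p) = pr y y1 p) → (∀ p, eval x' (D.G' p) = pr y y2 p) →
        eval y Γ = 8 * (eval y (lin η) * eval y1 (lin η)) * (eval y (lin η) * eval y2 (lin η))) ∧
      C 16 * g ^ 4 * Γ ^ d2 = C (2 ^ d2) * N * W ∧
      (h * h ∣ M → ∀ w, Irreducible w → w ∣ g → w ∣ W) := by
  have hh0 : h ≠ 0 := hsh.ne_zero
  have hbd : ((lin η) ^ d2).IsHomogeneous d2 := by
    simpa using (lin_isHomogeneous η).pow d2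
  obtain ⟨T, hTd, hT⟩ := D.swap.exists_norm h2 hg hbd
  have hhM : h ∣ M := dvd_other hd' hcom hsh fun x y y' _ _ e h3 h4 => by
    rw [hM y y' x e, h3]; ring
  have hhT : h ∣ T := dvd_other hd' hcom hsh fun x y y' _ _ e h3 h4 => by
    rw [hT y y' x e, h3, h4]; ring
  obtain ⟨ν, hν, hνd⟩ := exists_quot hh hh0 hMd hhM
  obtain ⟨τ, hτ, hτd⟩ := exists_quot hh hh0 hTd hhT
  obtain ⟨q, hqd, hq⟩ := D.swap.exists_norm h2 (lin_isHomogeneous η) (lin_isHomogeneous η)
  obtain ⟨Γ, -, hΓ⟩ := D.exists_norm h2 hqd hqd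
  obtain ⟨N1, -, hN1⟩ := D.exists_norm h2 hτd hτd
  obtain ⟨N2, -, hN2⟩ := D.exists_norm h2 hτd hνd
  obtain ⟨N3, -, hN3⟩ := D.exists_norm h2 hνd hνd
  set A : MvPolynomial (Fin n) k := C (2 ^ (d2 + 1)) * (lin η) ^ d2 * g with hA
  set B : MvPolynomial (Fin n) k := C (2 ^ d2) * (lin η) ^ d2 * (lin η) ^ d2 with hB
  have key : ∀ x y y' : Fin n → k, (∀ p, eval x (D.G' p) = pr y y' p) →
      2 * (eval y g) ^ 2 * (eval x q) ^ d2 =
        eval x h * (eval y A * eval x τ - eval y B * eval x ν) := by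
    intro x y y' e
    have e1 := hT y y' x e
    have e2 := hM y y' x e
    have e3 := hq y y' x e
    rw [hτ, map_mul] at e1
    rw [hν, map_mul] at e2
    rw [e3, hA, hB]
    simp only [map_mul, map_pow, eval_C] at e1 e2 ⊢
    rw [← two_mul, mul_pow, mul_pow]
    linear_combination (-(2 ^ (d2 + 1) * (eval y (lin η)) ^ d2 * eval y g)) * e1 +
      (2 ^ d2 * (eval y (lin η)) ^ d2 * (eval y (lin η)) ^ d2) * e2
  refine ⟨Γ, A ^ 2 * N1 - 2 * A * B * N2 + B ^ 2 * N3, ?_, ?_, ?_⟩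
  · intro y x x' y1 y2 e e1 e2
    rw [hΓ x x' y e, hq y y1 x e1, hq y y2 x' e2]
    ring
  · rw [← sub_eq_zero]
    refine dense0 hn D hd fun y hy hgood => ?_
    obtain ⟨x, x', hx, hx', e, eN⟩ := eval_norm_of_good hN hy hgood
    obtain ⟨y1, -, e1⟩ := D.sy hx (hgood.2 x hx)
    obtain ⟨y2, -, e2⟩ := D.sy hx' (hgood.2 x' hx')
    have k1 := key x y y1 e1
    have k2 := key x' y y2 e2
    simp only [map_sub, map_add, map_mul, map_pow, map_ofNat] at k1 k2 ⊢
    rw [hΓ x x' y e, hN1 x x' y e, hN2 x x' y e, hN3 x x' y e, eN, ← two_mul, mul_pow, mul_pow]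
    linear_combination (2 ^ d2 * 4 * 2 * (eval y g) ^ 2 * (eval x' q) ^ d2) * k1 +
      (2 ^ d2 * 4 * eval x h * (eval y A * eval x τ - eval y B * eval x ν)) * k2
  · intro hhh w hw hwg
    have hhν : h ∣ ν := by
      rw [hν] at hhh
      exact (mul_dvd_mul_iff_left hh0).1 hhh
    have hwA : w ∣ A := hwg.trans (Dvd.intro_left _ rfl)
    have hwN : w ∣ N3 := by
      refine hd w hw N3 fun y hy hgood hz => ?_
      obtain ⟨x, hx⟩ := D.ex hy hgood.1
      obtain ⟨x', hx', e⟩ := D.sx hx hgood.1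
      have h3 : eval x h = 0 := (hcom x y hx hgood.1 (hgood.2 x hx)).2 (by
        obtain ⟨r, rfl⟩ := hwg
        rw [map_mul, hz, zero_mul])
      have h4 : eval x ν = 0 := by
        obtain ⟨r, hr⟩ := hhν
        rw [hr, map_mul, h3, zero_mul]
      rw [hN3 x x' y e, h4]
      ring
    have t1 : w ∣ A ^ 2 * N1 := (hwA.trans (Dvd.intro_left _ (pow_succ A 1).symm)).mul_right _
    have t2 : w ∣ 2 * A * B * N2 := ((hwA.mul_left 2).mul_right B).mul_right N2
    exact (t1.sub t2).add (hwN.mul_left _)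

theorem exists_not_dvd [IsAlgClosed k] (h2 : (2 : k) ≠ 0) (hd : D.Dense)
    {w : MvPolynomial (Fin n) k} (hw : Irreducible w) : ∃ η : Fin n → k,
      ∀ Γ : MvPolynomial (Fin n) k, (∀ y x x' y1 y2 : Fin n → k,
        (∀ p, eval y (D.G p) = pr x x' p) →
        (∀ p, eval x (D.G' p) = pr y y1 p) → (∀ p, eval x' (D.G' p) = pr y y2 p) →
        eval y Γ = 8 * (eval y (lin η) * eval y1 (lin η)) * (eval y (lin η) * eval y2 (lin η))) →
      ¬ w ∣ Γ := by
  obtain ⟨y, hy, hgood, hz⟩ : ∃ y, y ≠ 0 ∧ D.Good y ∧ eval y w = 0 := by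
    by_contra h
    push Not at h
    exact hw.not_isUnit (isUnit_of_dvd_one (hd w hw 1 fun y hy hgood hz =>
      absurd hz (h y hy hgood)))
  obtain ⟨x, hx⟩ := D.ex hy hgood.1
  obtain ⟨x', hx', e⟩ := D.sx hx hgood.1
  obtain ⟨y1, hy1, e1⟩ := D.sy hx (hgood.2 x hx)
  obtain ⟨y2, hy2, e2⟩ := D.sy hx' (hgood.2 x' hx')
  obtain ⟨η, hη⟩ := exists_eta ![y, y1, y2] (by
    intro i
    fin_cases i
    · exact hy
    · exact D.ne2 hy1
    · exact D.ne2 hy2)
  have a0 : eval y (lin η) ≠ 0 := hη 0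
  have a1 : eval y1 (lin η) ≠ 0 := hη 1
  have a2 : eval y2 (lin η) ≠ 0 := hη 2
  have h8 : (8 : k) ≠ 0 := by
    have : (8 : k) = 2 ^ 3 := by norm_num
    rw [this]
    exact pow_ne_zero _ h2
  refine ⟨η, fun Γ hΓ hdvd => ?_⟩
  obtain ⟨r, rfl⟩ := hdvd
  have h3 := hΓ y x x' y1 y2 e e1 e2
  rw [map_mul, hz, zero_mul] at h3
  exact mul_ne_zero (mul_ne_zero h8 (mul_ne_zero a0 a1)) (mul_ne_zero a0 a2) h3.symm

/-- The norm of `h` divides the fourth power of `g`. -/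
theorem norm_dvd_pow [IsAlgClosed k] (h2 : (2 : k) ≠ 0) (hn : 2 ≤ n) (hd : D.Dense)
    (hd' : D.swap.Dense) {d1 d2 : ℕ} (hh : h.IsHomogeneous d1) (hg : g.IsHomogeneous d2)
    (hsh : Squarefree h) (hg0 : g ≠ 0) (hcom : D.Compat h g) (hN : IsNorm D h N) : N ∣ g ^ 4 := by
  refine dvd_of_pow (norm_ne_zero hn h2 hd hcom hN hg0) fun w hw e he => ?_
  rcases Nat.eq_zero_or_pos e with rfl | hpos
  · simp
  have hwN : w ∣ N := (dvd_pow_self w hpos.ne').trans he
  obtain ⟨M, hMd, hM⟩ := D.swap.exists_norm h2 hg hg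
  obtain ⟨η, hη⟩ := exists_not_dvd h2 hd hw.irreducible
  obtain ⟨Γ, W, hΓ, hid, -⟩ := core h2 hn hd hd' hh hg hsh hcom hN hM hMd η
  have h16 : IsUnit (C 16 : MvPolynomial (Fin n) k) := by
    have : (16 : k) = 2 ^ 4 := by norm_num
    rw [this]
    exact (pow_ne_zero _ h2).isUnit.map C
  have h3 : w ^ e ∣ C 16 * g ^ 4 * Γ ^ d2 := by
    rw [hid, mul_assoc]
    exact (he.mul_right W).mul_left _
  have h4 := hw.pow_dvd_of_dvd_mul_right e (fun h => hη Γ hΓ (hw.dvd_of_dvd_pow h)) h3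
  exact h16.dvd_mul_left.1 h4

theorem degree_le [IsAlgClosed k] (h2 : (2 : k) ≠ 0) (hn : 2 ≤ n) (hd : D.Dense)
    (hd' : D.swap.Dense) {d1 d2 : ℕ} (hh : h.IsHomogeneous d1) (hg : g.IsHomogeneous d2)
    (hsh : Squarefree h) (hg0 : g ≠ 0) (hcom : D.Compat h g) : c * d1 ≤ d2 * 4 := by
  obtain ⟨N, hNd, hN⟩ := D.exists_norm h2 hh hh
  obtain ⟨q, hq⟩ := norm_dvd_pow h2 hn hd hd' hh hg hsh hg0 hcom hN
  have hN0 := norm_ne_zero hn h2 hd hcom hN hg0
  have hg4 : g ^ 4 ≠ 0 := pow_ne_zero _ hg0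
  have hq0 : q ≠ 0 := by
    rintro rfl
    exact hg4 (by rw [hq, mul_zero])
  have h1 := (hg.pow 4).totalDegree hg4
  rw [hq, totalDegree_mul_of_isDomain hN0 hq0, hNd.totalDegree hN0] at h1
  omega

theorem pow_dvd_norm [IsAlgClosed k] (h2 : (2 : k) ≠ 0) (hn : 2 ≤ n) (hd : D.Dense)
    (hd' : D.swap.Dense) {d1 d2 : ℕ} (hh : h.IsHomogeneous d1) (hg : g.IsHomogeneous d2)
    (hsh : Squarefree h) (hg0 : g ≠ 0) (hcom : D.Compat h g) (hN : IsNorm D h N)
    (hNd : N.IsHomogeneous (c * d1)) (heq : c * d1 = d2 * 4) : g ^ 4 ∣ N := by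
  obtain ⟨q, hq⟩ := norm_dvd_pow h2 hn hd hd' hh hg hsh hg0 hcom hN
  have hN0 := norm_ne_zero hn h2 hd hcom hN hg0
  have hg4 : g ^ 4 ≠ 0 := pow_ne_zero _ hg0
  have hq0 : q ≠ 0 := by
    rintro rfl
    exact hg4 (by rw [hq, mul_zero])
  have h1 := (hg.pow 4).totalDegree hg4
  rw [hq, totalDegree_mul_of_isDomain hN0 hq0, hNd.totalDegree hN0, heq] at h1
  have h3 : q.totalDegree = 0 := by omega
  rw [totalDegree_eq_zero_iff_eq_C] at h3
  have h4 : coeff 0 q ≠ 0 := by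
    intro h
    rw [h, map_zero] at h3
    exact hq0 h3
  refine ⟨C (coeff 0 q)⁻¹, ?_⟩
  rw [hq, mul_assoc]
  nth_rewrite 1 [h3]
  rw [← C_mul, mul_inv_cancel₀ h4, C_1, mul_one]

end norm

/-- No pair of forms is compatible with the two double coverings. -/
theorem no_compat {k : Type u} [Field k] [IsAlgClosed k] {n c : ℕ} (h2 : (2 : k) ≠ 0) (hn : 2 ≤ n)
    (hc : 4 ≤ c) (D : Dbl k n c) (hd : D.Dense) (hd' : D.swap.Dense)
    {h g : MvPolynomial (Fin n) k} {d1 d2 : ℕ} (hh : h.IsHomogeneous d1) (hg : g.IsHomogeneous d2)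
    (hsh : Squarefree h) (hsg : Squarefree g) (hpos : 0 < d1) (hcom : D.Compat h g) : False := by
  have e1 := degree_le h2 hn hd hd' hh hg hsh hsg.ne_zero hcom
  have e2 := degree_le (D := D.swap) h2 hn hd' hd hg hh hsg hsh.ne_zero (compat_symm hcom)
  have e3 : 4 * d1 ≤ c * d1 := Nat.mul_le_mul_right d1 hc
  have e4 : 4 * d2 ≤ c * d2 := Nat.mul_le_mul_right d2 hc
  have hdd : d1 = d2 := by omega
  subst hdd
  have heq : c * d1 = d1 * 4 := by omega
  obtain ⟨N, hNd, hN⟩ := D.exists_norm h2 hh hh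
  obtain ⟨M, hMd, hM⟩ := D.swap.exists_norm h2 hg hg
  have hN0 := norm_ne_zero hn h2 hd hcom hN hsg.ne_zero
  have hN4 := pow_dvd_norm h2 hn hd hd' hh hg hsh hsg.ne_zero hcom hN hNd heq
  have hM4 := pow_dvd_norm (D := D.swap) h2 hn hd' hd hg hh hsg hsh.ne_zero (compat_symm hcom) hM hMd heq
  -- `g` has an irreducible factor
  obtain ⟨w, hw, hwg⟩ : ∃ w, Irreducible w ∧ w ∣ g := by
    refine WfDvdMonoid.exists_irreducible_factor (fun hu => ?_) hsg.ne_zero
    have h3 := hg.totalDegree hsg.ne_zero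
    rw [MvPolynomial.isUnit_iff_totalDegree_of_isReduced] at hu
    omega
  obtain ⟨η, hη⟩ := exists_not_dvd h2 hd hw
  obtain ⟨Γ, W, hΓ, hid, hW⟩ := core h2 hn hd hd' hh hg hsh hcom hN hM hMd η
  have hwW : w ∣ W := hW (Dvd.dvd.trans ⟨h * h, by ring⟩ hM4) w hw hwg
  obtain ⟨r, hr⟩ := hN4
  obtain ⟨s, hs⟩ := hwW
  have h3 : w ∣ C 16 * Γ ^ d1 := by
    refine ⟨C (2 ^ d1) * r * s, ?_⟩
    have h4 : g ^ 4 ≠ 0 := pow_ne_zero _ hsg.ne_zero
    apply mul_left_cancel₀ h4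
    rw [hr, hs] at hid
    linear_combination hid
  have h16 : IsUnit (C 16 : MvPolynomial (Fin n) k) := by
    have : (16 : k) = 2 ^ 4 := by norm_num
    rw [this]
    exact (pow_ne_zero _ h2).isUnit.map C
  exact hη Γ hΓ (hw.prime.dvd_of_dvd_pow (h16.dvd_mul_left.1 h3))

end Pool.Agent.Helper47.NI
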