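import Mathlib
import Pool.Agent.Helper47.NI.Main

/-!
# The closure of an infinite family of points which is stable under both involutions

Let `Ω` be an extension of `k` and let `(X i, Y i)` be a family of `Ω`-points with injective maps
`s`, `t` of the index set, such that `X i`, `X (s i)` are the two points over `Y i` and
`Y i`, `Y (t i)` are the two points over `X i`.  If two coprime forms over `k` vanish together at
finitely many `X i` only, and the same for `Y i`, then the `X i` are dense or the `Y i` are dense.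

Proof: let `h` be a form of minimal degree which is not zero and vanishes at almost all `X i`, and
let `g` be the same for the `Y i`.  Then `h` divides every form which vanishes at almost all `X i`
(greatest common divisor), and `h`, `g` are squarefree.  The norm of `g` and all the forms
`g(y) b(y'') + g(y'') b(y)`, `b` a power of a linear form, vanish at almost all `X i`, so they are
divisible by `h`; so `g` vanishes at `y` if `h` vanishes at `x`, and conversely: `NI`.
-/

namespace Pool.Agent.Helper47.NI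

open MvPolynomial

universe u

variable {k : Type u} [Field k] {n c : ℕ}

/-- Forms of degree zero are constants. -/
private theorem cl_unit {F : MvPolynomial (Fin n) k} (hF : F.IsHomogeneous 0) (h0 : F ≠ 0) :
    ∃ c : k, c ≠ 0 ∧ F = C c := by
  have h1 : F.totalDegree = 0 := hF.totalDegree h0
  have h2 := totalDegree_eq_zero_iff_eq_C.mp h1
  refine ⟨coeff 0 F, fun h => h0 ?_, h2⟩
  rw [h2, h, C_0]

private theorem cl_min [Infinite k] {Ω : Type u} [Field Ω] [Algebra k Ω] {ι : Type*} [Infinite ι]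
    (X : ι → Fin n → Ω)
    (fX : ∀ (F1 F2 : MvPolynomial (Fin n) k) (e1 e2 : ℕ), F1.IsHomogeneous e1 →
      F2.IsHomogeneous e2 → IsRelPrime F1 F2 →
        {i | aeval (X i) F1 = 0 ∧ aeval (X i) F2 = 0}.Finite)
    {h : MvPolynomial (Fin n) k} {d1 : ℕ} (hh : h.IsHomogeneous d1) (hh0 : h ≠ 0)
    (hhX : ∀ i, aeval (X i) h = 0) :
    ∃ (f : MvPolynomial (Fin n) k) (d : ℕ), f.IsHomogeneous d ∧ 0 < d ∧ Squarefree f ∧
      {i | aeval (X i) f ≠ 0}.Finite ∧
      ∀ (F : MvPolynomial (Fin n) k) (e : ℕ), F.IsHomogeneous e →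
        {i | aeval (X i) F ≠ 0}.Finite → f ∣ F := by
  classical
  have hex : ∃ d : ℕ, ∃ F : MvPolynomial (Fin n) k, F ≠ 0 ∧ F.IsHomogeneous d ∧
      {i | aeval (X i) F ≠ 0}.Finite := by
    refine ⟨d1, h, hh0, hh, ?_⟩
    have : {i | aeval (X i) h ≠ 0} = ∅ := by
      ext i
      simp [hhX i]
    rw [this]
    exact Set.finite_empty
  obtain ⟨f, hf0, hf, hfin⟩ := Nat.find_spec hex
  have hmin : ∀ (F : MvPolynomial (Fin n) k) (e : ℕ), F ≠ 0 → F.IsHomogeneous e →
      {i | aeval (X i) F ≠ 0}.Finite → Nat.find hex ≤ e := fun F e h1 h2 h3 =>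
    Nat.find_min' hex ⟨F, h1, h2, h3⟩
  have hunit : ∀ {a : MvPolynomial (Fin n) k}, a.IsHomogeneous 0 → a ≠ 0 → IsUnit a := by
    intro a h1 h2
    obtain ⟨c, hc, rfl⟩ := cl_unit h1 h2
    exact (isUnit_iff_ne_zero.mpr hc).map C
  refine ⟨f, Nat.find hex, hf, ?_, ?_, hfin, ?_⟩
  · rcases Nat.eq_zero_or_pos (Nat.find hex) with h0 | h0
    · exfalso
      rw [h0] at hf
      obtain ⟨c, hc, rfl⟩ := cl_unit hf hf0
      have : {i | aeval (X i) (C c : MvPolynomial (Fin n) k) ≠ 0} = Set.univ := by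
        ext i
        simp only [Set.mem_ofPred_eq, Set.mem_univ, iff_true, algHom_C]
        exact (map_ne_zero_iff _ (algebraMap k Ω).injective).mpr hc
      rw [this] at hfin
      exact Set.infinite_univ hfin
    · exact h0
  · rintro v ⟨w, hw⟩
    have hw' : f = v * (v * w) := by rw [hw, mul_assoc]
    have h1 := hf
    rw [hw'] at h1
    have hf1 : v * (v * w) ≠ 0 := by rw [← hw']; exact hf0
    obtain ⟨a, b, ha, hb, hab⟩ := hom_factor h1 hf1
    have h3 : {i | aeval (X i) (v * w) ≠ 0}.Finite := by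
      refine hfin.subset fun i hi => ?_
      simp only [Set.mem_ofPred_eq, map_mul] at hi ⊢
      rw [hw', map_mul, map_mul]
      exact mul_ne_zero (left_ne_zero_of_mul hi) hi
    have h4 := hmin _ _ (right_ne_zero_of_mul hf1) hb h3
    have h5 : a = 0 := by omega
    rw [h5] at ha
    exact hunit ha (left_ne_zero_of_mul hf1)
  · intro F e hF hFfin
    by_cases hF0 : F = 0
    · rw [hF0]
      exact dvd_zero f
    obtain ⟨a, b, c, hab, ha, hb⟩ := UniqueFactorizationMonoid.exists_reduced_factors' f F hF0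
    have h1 := hf
    rw [← ha] at h1
    obtain ⟨p, q, hp, hq, hpq⟩ := hom_factor h1 (by rw [ha]; exact hf0)
    have h2 := hF
    rw [← hb] at h2
    obtain ⟨p', r, _, hr, _⟩ := hom_factor h2 (by rw [hb]; exact hF0)
    have hc0 : c ≠ 0 := fun h => hf0 (by rw [← ha, h, zero_mul])
    have ha0 : a ≠ 0 := fun h => hf0 (by rw [← ha, h, mul_zero])
    have h3 : {i | aeval (X i) c ≠ 0}.Finite := by
      refine ((hfin.union hFfin).union (fX a b q r hq hr hab)).subset fun i hi => ?_
      simp only [Set.mem_union, Set.mem_ofPred_eq] at hi ⊢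
      by_cases h4 : aeval (X i) a = 0
      · by_cases h5 : aeval (X i) b = 0
        · exact Or.inr ⟨h4, h5⟩
        · refine Or.inl (Or.inr ?_)
          rw [← hb, map_mul]
          exact mul_ne_zero hi h5
      · refine Or.inl (Or.inl ?_)
        rw [← ha, map_mul]
        exact mul_ne_zero hi h4
    have h4 := hmin _ _ hc0 hp h3
    have h5 : q = 0 := by omega
    rw [h5] at hq
    have h6 : f ∣ c := by
      rw [← ha]
      exact (hunit hq ha0).mul_right_dvd.mpr dvd_rfl
    exact h6.trans ⟨b, hb.symm⟩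

private theorem cl_scale {Ω : Type u} [Field Ω] [Algebra k Ω] {m : Type*} [Fintype m] {e : ℕ}
    {H : MvPolynomial m k} (hH : H.IsHomogeneous e) (l : Ω) (z : m → Ω) :
    aeval (fun p => l * z p) H = l ^ e * aeval z H := by
  rw [aeval_def, aeval_def, eval₂_eq, eval₂_eq, Finset.mul_sum]
  refine Finset.sum_congr rfl fun a ha => ?_
  have hn := hH.degree_eq_sum_deg_support ha
  simp only [mul_pow]
  rw [Finset.prod_mul_distrib, Finset.prod_pow_eq_pow_sum, ← hn]
  ring

/-- The norm and the traces of forms which vanish at almost all `Y i`. -/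
private theorem cl_norm (h2 : (2 : k) ≠ 0) (G' : Fin n × Fin n → MvPolynomial (Fin n) k)
    (hG' : ∀ p, (G' p).IsHomogeneous c) {Ω : Type u} [Field Ω] [Algebra k Ω] {ι : Type*}
    (X Y : ι → Fin n → Ω) (t : ι → ι)
    (hY : ∀ i, ∃ l : Ω, ∀ p, aeval (X i) (G' p) = l * pr (Y i) (Y (t i)) p)
    {f : MvPolynomial (Fin n) k}
    (hf : ∀ (F : MvPolynomial (Fin n) k) (e : ℕ), F.IsHomogeneous e →
        {i | aeval (X i) F ≠ 0}.Finite → f ∣ F)
    {u v : MvPolynomial (Fin n) k} {e : ℕ} (hu : u.IsHomogeneous e) (hv : v.IsHomogeneous e)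
    (hfin : {i | aeval (Y i) u * aeval (Y (t i)) v + aeval (Y i) v * aeval (Y (t i)) u ≠
      0}.Finite)
    (x y y' : Fin n → k) (hx : eval x f = 0) (hp : ∀ p, eval x (G' p) = pr y y' p) :
    eval y u * eval y' v + eval y v * eval y' u = 0 := by
  obtain ⟨H, hH, hval⟩ := exists_sym (2 : k)⁻¹ (mul_inv_cancel₀ h2) e u v hu hv
  have h1 : f ∣ aeval G' H := by
    refine hf _ (c * e) (hH.aeval G' hG') (hfin.subset fun i hi => ?_)
    simp only [Set.mem_ofPred_eq] at hi ⊢
    intro h0
    apply hi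
    obtain ⟨l, hl⟩ := hY i
    have e1 : aeval (X i) (aeval G' H) = aeval (fun p => l * pr (Y i) (Y (t i)) p) H := by
      rw [comp_aeval_apply]
      congr 2
      funext p
      exact hl p
    rw [e1, cl_scale hH, hval Ω, h0, mul_zero]
  obtain ⟨w, hw⟩ := h1
  have e2 : eval x (aeval G' H) = 0 := by rw [hw, map_mul, hx, zero_mul]
  have e3 : ∀ (z : Fin n → k) (p : MvPolynomial (Fin n) k), eval z p = aeval z p :=
    fun z p => by rw [aeval_eq_eval]
  rw [e3, comp_aeval_apply] at e2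
  have e4 : (fun p => aeval x (G' p)) = pr y y' := by
    funext p
    rw [← e3]
    exact hp p
  rw [e4, hval k] at e2
  rw [e3, e3, e3, e3]
  exact e2

private theorem cl_half [IsAlgClosed k] (h2 : (2 : k) ≠ 0) (D : Dbl k n c)
    {Ω : Type u} [Field Ω] [Algebra k Ω] {ι : Type*} (X Y : ι → Fin n → Ω)
    (t : ι → ι) (ht : Function.Injective t)
    (hY : ∀ i, ∃ l : Ω, ∀ p, aeval (X i) (D.G' p) = l * pr (Y i) (Y (t i)) p)
    {f g : MvPolynomial (Fin n) k} {b : ℕ}
    (hf : ∀ (F : MvPolynomial (Fin n) k) (e : ℕ), F.IsHomogeneous e →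
        {i | aeval (X i) F ≠ 0}.Finite → f ∣ F)
    (hg : g.IsHomogeneous b) (hgfin : {i | aeval (Y i) g ≠ 0}.Finite)
    {x y : Fin n → k} (hxy : (x, y) ∈ D.S) (hG : ∃ p, eval x (D.G' p) ≠ 0)
    (hx : eval x f = 0) : eval y g = 0 := by
  obtain ⟨y', hy', hp⟩ := D.sy hxy hG
  have h1 := cl_norm h2 D.G' D.hG' X Y t hY hf hg hg (hgfin.subset fun i hi => by
    simp only [Set.mem_ofPred_eq] at hi ⊢
    intro h
    exact hi (by rw [h]; ring)) x y y' hx hp
  have h3 : eval y g * eval y' g = 0 := by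
    have : (2 : k) * (eval y g * eval y' g) = 0 := by linear_combination h1
    exact (mul_eq_zero.mp this).resolve_left h2
  rcases mul_eq_zero.mp h3 with h4 | h4
  · exact h4
  obtain ⟨j, hj⟩ : ∃ j, y' j ≠ 0 := by
    by_contra hc
    push Not at hc
    exact D.ne2 hy' (funext hc)
  have hv : (MvPolynomial.X j ^ b : MvPolynomial (Fin n) k).IsHomogeneous b := by
    have := (isHomogeneous_X k j).pow b
    rwa [one_mul] at this
  have h5 := cl_norm h2 D.G' D.hG' X Y t hY hf hg hv
    ((hgfin.union (hgfin.preimage (ht.injOn (s := _)))).subset fun i hi => by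
      simp only [Set.mem_ofPred_eq, Set.mem_union, Set.mem_preimage] at hi ⊢
      by_contra hc
      push Not at hc
      exact hi (by rw [hc.1, hc.2]; ring)) x y y' hx hp
  rw [h4, mul_zero, add_zero, map_pow, eval_X] at h5
  exact (mul_eq_zero.mp h5).resolve_right (pow_ne_zero _ hj)

theorem closure [IsAlgClosed k] (h2 : (2 : k) ≠ 0) (hn : 2 ≤ n) (hc : 4 ≤ c) (D : Dbl k n c)
    (hd : D.Dense) (hd' : D.swap.Dense)
    {Ω : Type u} [Field Ω] [Algebra k Ω] {ι : Type*} [Infinite ι] (X Y : ι → Fin n → Ω)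
    (s t : ι → ι) (hs : Function.Injective s) (ht : Function.Injective t)
    (hX : ∀ i, ∃ l : Ω, ∀ p, aeval (Y i) (D.G p) = l * pr (X i) (X (s i)) p)
    (hY : ∀ i, ∃ l : Ω, ∀ p, aeval (X i) (D.G' p) = l * pr (Y i) (Y (t i)) p)
    (fX : ∀ (F1 F2 : MvPolynomial (Fin n) k) (e1 e2 : ℕ), F1.IsHomogeneous e1 →
      F2.IsHomogeneous e2 → IsRelPrime F1 F2 →
        {i | aeval (X i) F1 = 0 ∧ aeval (X i) F2 = 0}.Finite)
    (fY : ∀ (F1 F2 : MvPolynomial (Fin n) k) (e1 e2 : ℕ), F1.IsHomogeneous e1 →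
      F2.IsHomogeneous e2 → IsRelPrime F1 F2 →
        {i | aeval (Y i) F1 = 0 ∧ aeval (Y i) F2 = 0}.Finite)
    {h g : MvPolynomial (Fin n) k} {d1 d2 : ℕ} (hh : h.IsHomogeneous d1)
    (hg : g.IsHomogeneous d2) (hh0 : h ≠ 0) (hg0 : g ≠ 0) (hhX : ∀ i, aeval (X i) h = 0)
    (hgY : ∀ i, aeval (Y i) g = 0) : False := by
  have : Infinite k := IsAlgClosed.instInfinite
  obtain ⟨f, a, hf, hapos, hfsq, hffin, hfdvd⟩ := cl_min X fX hh hh0 hhX
  obtain ⟨q, b, hq, hbpos, hqsq, hqfin, hqdvd⟩ := cl_min Y fY hg hg0 hgY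
  refine no_compat h2 hn hc D hd hd' hf hq hfsq hqsq hapos ?_
  intro x y hxy hGy hGx
  constructor
  · exact fun h => cl_half h2 D X Y t ht hY hfdvd hq hqfin hxy hGx h
  · exact fun h => cl_half h2 D.swap Y X s hs hX hqdvd hf hffin (show (y, x) ∈ D.swap.S from hxy)
      hGy h

end Pool.Agent.Helper47.NI
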