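import Mathlib
import Pool.Agent.Helper47.NI.Closure

/-!
# From forms to functions of both points

`F` is a polynomial in `x` whose coefficients are polynomials in `y`.  The product of its values at
the two points over `y` is a polynomial in `y`, and the same on the other side; so a bihomogeneous
`F` which vanishes at all points of an infinite family as in `closure` vanishes at one of the two
points over every `y`, or over every `x`.
-/

namespace Pool.Agent.Helper47.NI

open MvPolynomial

universe u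

variable {k : Type u} [Field k] {n c : ℕ}

/-- The value at `(x, y)` of a polynomial in `x` with coefficients in `k[y]`. -/
noncomputable def bev {A : Type*} [CommRing A] [Algebra k A] (x y : Fin n → A) :
    MvPolynomial (Fin n) (MvPolynomial (Fin n) k) →+* A :=
  eval₂Hom ((aeval y : MvPolynomial (Fin n) k →ₐ[k] A) : MvPolynomial (Fin n) k →+* A) x

/-- Exchange the two sets of variables. -/
noncomputable def swp : MvPolynomial (Fin n) (MvPolynomial (Fin n) k) →+*
    MvPolynomial (Fin n) (MvPolynomial (Fin n) k) :=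
  eval₂Hom (map (C : k →+* MvPolynomial (Fin n) k)) (fun i => C (X i))

theorem bev_swp {A : Type*} [CommRing A] [Algebra k A] (x y : Fin n → A)
    (F : MvPolynomial (Fin n) (MvPolynomial (Fin n) k)) : bev y x (swp F) = bev x y F := by
  have h : ((bev y x).comp swp : MvPolynomial (Fin n) (MvPolynomial (Fin n) k) →+* A) =
      bev x y := by
    apply MvPolynomial.ringHom_ext
    · intro r
      have h2 : (((bev y x).comp swp).comp C : MvPolynomial (Fin n) k →+* A) =
          (bev x y).comp C := by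
        apply MvPolynomial.ringHom_ext
        · intro s
          simp [bev, swp]
        · intro i
          simp [bev, swp]
      exact DFunLike.congr_fun h2 r
    · intro i
      simp [bev, swp]
  exact DFunLike.congr_fun h F

theorem swp_swp (F : MvPolynomial (Fin n) (MvPolynomial (Fin n) k)) : swp (swp F) = F := by
  have h : (swp.comp swp : MvPolynomial (Fin n) (MvPolynomial (Fin n) k) →+* _) =
      RingHom.id _ := by
    apply MvPolynomial.ringHom_ext
    · intro r
      have h2 : ((swp.comp swp).comp C : MvPolynomial (Fin n) k →+*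
          MvPolynomial (Fin n) (MvPolynomial (Fin n) k)) = C := by
        apply MvPolynomial.ringHom_ext
        · intro s
          simp [swp]
        · intro i
          simp [swp]
      exact DFunLike.congr_fun h2 r
    · intro i
      simp [swp]
  exact DFunLike.congr_fun h F

theorem swp_isHomogeneous {F : MvPolynomial (Fin n) (MvPolynomial (Fin n) k)} {b : ℕ}
    (hF : ∀ m, (coeff m F).IsHomogeneous b) : (swp F).IsHomogeneous b := by
  rw [swp, coe_eval₂Hom, eval₂_eq]
  refine IsHomogeneous.sum _ _ _ fun m _ => ?_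
  have h1 : (map (C : k →+* MvPolynomial (Fin n) k) (coeff m F)).IsHomogeneous b := (hF m).map _
  have h2 : (∏ i ∈ m.support, (C (X i) : MvPolynomial (Fin n) (MvPolynomial (Fin n) k)) ^ m i) =
      C (∏ i ∈ m.support, X i ^ m i) := by
    rw [map_prod]
    simp
  rw [h2]
  simpa using h1.mul (isHomogeneous_C (Fin n) (∏ i ∈ m.support, X i ^ m i))

theorem eval₂_smul_of_hom {R A σ : Type*} [CommRing R] [CommRing A] (f : R →+* A)
    {H : MvPolynomial σ R} {d : ℕ} (hH : H.IsHomogeneous d) (l : A) (v : σ → A) :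
    eval₂ f (fun p => l * v p) H = l ^ d * eval₂ f v H := by
  rw [eval₂_eq, eval₂_eq, Finset.mul_sum]
  refine Finset.sum_congr rfl fun m hm => ?_
  have hn := hH.degree_eq_sum_deg_support hm
  simp only [mul_pow]
  rw [Finset.prod_mul_distrib, Finset.prod_pow_eq_pow_sum, ← hn]
  ring

theorem bev_smul_left {A : Type*} [CommRing A] [Algebra k A] (x y : Fin n → A)
    {F : MvPolynomial (Fin n) (MvPolynomial (Fin n) k)} {a : ℕ} (hF : F.IsHomogeneous a) (l : A) :
    bev (fun i => l * x i) y F = l ^ a * bev x y F :=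
  eval₂_smul_of_hom _ hF l x

theorem bev_smul_right {A : Type*} [CommRing A] [Algebra k A] (x y : Fin n → A)
    {F : MvPolynomial (Fin n) (MvPolynomial (Fin n) k)} {b : ℕ}
    (hF : (swp F).IsHomogeneous b) (l : A) :
    bev x (fun i => l * y i) F = l ^ b * bev x y F := by
  rw [← bev_swp, ← bev_swp x y, bev_smul_left _ _ hF]

theorem exists_norm_bi (D : Dbl k n c) (h2 : (2 : k) ≠ 0) {a : ℕ}
    {F : MvPolynomial (Fin n) (MvPolynomial (Fin n) k)} (hF : F.IsHomogeneous a) :
    ∃ N : MvPolynomial (Fin n) k, ∀ (A : Type u) [CommRing A] [Algebra k A]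
      (x x' y : Fin n → A) (l : A), (∀ p, aeval y (D.G p) = l * pr x x' p) →
        aeval y N = l ^ a * (2 * (bev x y F * bev x' y F)) := by
  have hr : (2 : MvPolynomial (Fin n) k) * C (2 : k)⁻¹ = 1 := by
    have : (2 : MvPolynomial (Fin n) k) = C 2 := (map_ofNat C 2).symm
    rw [this, ← C_mul, mul_inv_cancel₀ h2, C_1]
  obtain ⟨H, hH, hval⟩ := exists_sym (R := MvPolynomial (Fin n) k) _ hr a F F hF hF
  refine ⟨eval D.G H, fun A _ _ x x' y l hl => ?_⟩
  let _ : Algebra (MvPolynomial (Fin n) k) A :=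
    ((aeval y : MvPolynomial (Fin n) k →ₐ[k] A) : MvPolynomial (Fin n) k →+* A).toAlgebra
  have e1 := hval A x x'
  have e2 : (aeval y) (eval D.G H) = eval₂
      ((aeval y : MvPolynomial (Fin n) k →ₐ[k] A) : MvPolynomial (Fin n) k →+* A)
      (fun p => aeval y (D.G p)) H := by
    have := eval₂_comp_left
      ((aeval y : MvPolynomial (Fin n) k →ₐ[k] A) : MvPolynomial (Fin n) k →+* A)
      (RingHom.id _) D.G H
    rw [RingHom.comp_id] at this
    exact this
  rw [e2, show (fun p => aeval y (D.G p)) = fun p => l * pr x x' p from funext hl,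
    eval₂_smul_of_hom _ hH]
  congr 1
  rw [two_mul]
  exact e1

theorem component_zero [Infinite k] {Ω : Type*} [Field Ω] [Algebra k Ω] {N : MvPolynomial (Fin n) k}
    {y : Fin n → Ω} (h : ∀ t : k, aeval (fun i => algebraMap k Ω t * y i) N = 0) (j : ℕ) :
    aeval y (homogeneousComponent j N) = 0 := by
  set Q : Polynomial Ω := ∑ i ∈ Finset.range (N.totalDegree + 1),
      Polynomial.C (aeval y (homogeneousComponent i N)) * Polynomial.X ^ i with hQ
  have hev : ∀ t : k, Q.eval (algebraMap k Ω t) = 0 := by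
    intro t
    rw [← h t]
    conv_rhs => rw [← sum_homogeneousComponent N, map_sum]
    rw [hQ, Polynomial.eval_finsetSum]
    refine Finset.sum_congr rfl fun i _ => ?_
    have := eval₂_smul_of_hom (algebraMap k Ω) (homogeneousComponent_isHomogeneous i N)
      (algebraMap k Ω t) y
    rw [Polynomial.eval_mul, Polynomial.eval_C, Polynomial.eval_pow, Polynomial.eval_X,
      aeval_def, aeval_def, this]
    ring
  have hQ0 : Q = 0 := by
    refine Polynomial.eq_zero_of_infinite_isRoot Q ?_
    refine Set.Infinite.mono (s := Set.range (algebraMap k Ω)) ?_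
      (Set.infinite_range_of_injective (algebraMap k Ω).injective)
    rintro _ ⟨t, rfl⟩
    exact hev t
  by_cases hj : j ∈ Finset.range (N.totalDegree + 1)
  · have h2 := congrArg (fun q => Polynomial.coeff q j) hQ0
    simp only [hQ, Polynomial.finsetSum_coeff, Polynomial.coeff_C_mul, Polynomial.coeff_X_pow,
      Polynomial.coeff_zero] at h2
    rw [Finset.sum_eq_single j (fun i _ hi => by simp [hi.symm])
      (fun h => absurd hj h)] at h2
    simpa using h2
  · rw [homogeneousComponent_eq_zero, map_zero]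
    simp only [Finset.mem_range, not_lt] at hj
    omega

/-- The norm of `F` gives a form vanishing at all `Y i`. -/
theorem exists_form [IsAlgClosed k] (D : Dbl k n c) (h2 : (2 : k) ≠ 0)
    {Ω : Type u} [Field Ω] [Algebra k Ω] {ι : Type*} (X Y : ι → Fin n → Ω) (s : ι → ι)
    (hX : ∀ i, ∃ l : Ω, ∀ p, aeval (Y i) (D.G p) = l * pr (X i) (X (s i)) p)
    {a b : ℕ} {F : MvPolynomial (Fin n) (MvPolynomial (Fin n) k)} (hFa : F.IsHomogeneous a)
    (hFb : (swp F).IsHomogeneous b) (hF : ∀ i, bev (X i) (Y i) F = 0)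
    (hne : ∃ (Ω' : Type u) (_ : Field Ω') (_ : Algebra k Ω') (x x' y : Fin n → Ω') (l : Ω'),
      l ≠ 0 ∧ (∀ p, aeval y (D.G p) = l * pr x x' p) ∧ bev x y F ≠ 0 ∧ bev x' y F ≠ 0) :
    ∃ (g : MvPolynomial (Fin n) k) (d : ℕ), g.IsHomogeneous d ∧ g ≠ 0 ∧
      ∀ i, aeval (Y i) g = 0 := by
  obtain ⟨N, hN⟩ := exists_norm_bi D h2 hFa
  have hN0 : N ≠ 0 := by
    rintro rfl
    obtain ⟨Ω', _, _, x, x', y, l, hl, e, n1, n2⟩ := hne
    have h3 := hN Ω' x x' y l e
    have h2' : (2 : Ω') ≠ 0 := by
      have := (map_ne_zero (algebraMap k Ω')).2 h2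
      rwa [map_ofNat] at this
    rw [map_zero] at h3
    exact mul_ne_zero (pow_ne_zero _ hl) (mul_ne_zero h2' (mul_ne_zero n1 n2)) h3.symm
  have hz : ∀ i (t : k), aeval (fun j => algebraMap k Ω t * Y i j) N = 0 := by
    intro i t
    obtain ⟨l, hl⟩ := hX i
    have h4 : ∀ p, aeval (fun j => algebraMap k Ω t * Y i j) (D.G p) =
        ((algebraMap k Ω t) ^ c * l) * pr (X i) (X (s i)) p := by
      intro p
      have := eval₂_smul_of_hom (algebraMap k Ω) (D.hG p) (algebraMap k Ω t) (Y i)
      rw [aeval_def, this, ← aeval_def, hl p]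
      ring
    rw [hN Ω (X i) (X (s i)) _ _ h4, bev_smul_right _ _ hFb, hF i]
    ring
  obtain ⟨j, hj⟩ : ∃ j, homogeneousComponent j N ≠ 0 := by
    by_contra h
    push Not at h
    apply hN0
    rw [← sum_homogeneousComponent N]
    exact Finset.sum_eq_zero fun j _ => h j
  exact ⟨homogeneousComponent j N, j, homogeneousComponent_isHomogeneous j N, hj,
    fun i => component_zero (hz i) j⟩

theorem closure_bi [IsAlgClosed k] (h2 : (2 : k) ≠ 0) (hn : 2 ≤ n) (hc : 4 ≤ c) (D : Dbl k n c)
    (hd : D.Dense) (hd' : D.swap.Dense)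
    {Ω : Type u} [Field Ω] [Algebra k Ω] {ι : Type*} [Infinite ι] (X Y : ι → Fin n → Ω)
    (s t : ι → ι) (hs : Function.Injective s) (ht : Function.Injective t)
    (hX : ∀ i, ∃ l : Ω, ∀ p, aeval (Y i) (D.G p) = l * pr (X i) (X (s i)) p)
    (hY : ∀ i, ∃ l : Ω, ∀ p, aeval (X i) (D.G' p) = l * pr (Y i) (Y (t i)) p)
    (fX : ∀ (F1 F2 : MvPolynomial (Fin n) k) (e1 e2 : ℕ), F1.IsHomogeneous e1 →
      F2.IsHomogeneous e2 → IsRelPrime F1 F2 →
        {i | aeval (X i) F1 = 0 ∧ aeval (X i) F2 = 0}.Finite)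
    (fY : ∀ (F1 F2 : MvPolynomial (Fin n) k) (e1 e2 : ℕ), F1.IsHomogeneous e1 →
      F2.IsHomogeneous e2 → IsRelPrime F1 F2 →
        {i | aeval (Y i) F1 = 0 ∧ aeval (Y i) F2 = 0}.Finite)
    {a b : ℕ} {F : MvPolynomial (Fin n) (MvPolynomial (Fin n) k)} (hFa : F.IsHomogeneous a)
    (hFb : ∀ m, (coeff m F).IsHomogeneous b) (hF : ∀ i, bev (X i) (Y i) F = 0)
    (hne : ∃ (Ω' : Type u) (_ : Field Ω') (_ : Algebra k Ω') (x x' y : Fin n → Ω') (l : Ω'),
      l ≠ 0 ∧ (∀ p, aeval y (D.G p) = l * pr x x' p) ∧ bev x y F ≠ 0 ∧ bev x' y F ≠ 0)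
    (hne' : ∃ (Ω' : Type u) (_ : Field Ω') (_ : Algebra k Ω') (x y y' : Fin n → Ω') (l : Ω'),
      l ≠ 0 ∧ (∀ p, aeval x (D.G' p) = l * pr y y' p) ∧ bev x y F ≠ 0 ∧ bev x y' F ≠ 0) :
    False := by
  have hFb' := swp_isHomogeneous hFb
  obtain ⟨g, d2, hg, hg0, hgY⟩ := exists_form D h2 X Y s hX hFa hFb' hF hne
  obtain ⟨h, d1, hh, hh0, hhX⟩ := exists_form D.swap h2 Y X t hY hFb' (by rwa [swp_swp])
    (fun i => by rw [bev_swp]; exact hF i) (by
      obtain ⟨Ω', i1, i2, x, y, y', l, hl, e, n1, n2⟩ := hne'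
      exact ⟨Ω', i1, i2, y, y', x, l, hl, e, by rwa [bev_swp], by rwa [bev_swp]⟩)
  exact closure h2 hn hc D hd hd' X Y s t hs ht hX hY fX fY hh hg hh0 hg0 hhX hgY

end Pool.Agent.Helper47.NI
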