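import Mathlib
import Pool.Agent.Helper47.NI.Main

/-!
# A line without bad points

`dense_of_line`: if all points of one line are good, then the bad points are of codimension at
least two.
-/

namespace Pool.Agent.Helper47.NI

open MvPolynomial

universe u

variable {k : Type u} [Field k] {n c : ℕ}

/-- A form of positive degree has a zero on every line. -/
theorem exists_zero_on_line [IsAlgClosed k] {d : ℕ} {w : MvPolynomial (Fin n) k}
    (hw : w.IsHomogeneous d) (hd : 0 < d) (f0 f1 : Fin n → k) :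
    ∃ a b : k, (a ≠ 0 ∨ b ≠ 0) ∧ eval (a • f0 + b • f1) w = 0 := by
  classical
  by_cases h0 : eval f0 w = 0
  · exact ⟨1, 0, Or.inl one_ne_zero, by rw [one_smul, zero_smul, add_zero]; exact h0⟩
  have hP : ∀ (g0 g1 : Fin n → k) (a : k), (aeval (fun i => Polynomial.C (g0 i) * Polynomial.X +
      Polynomial.C (g1 i)) w : Polynomial k).eval a = eval (a • g0 + g1) w := by
    intro g0 g1 a
    have : ((Polynomial.evalRingHom a).comp (aeval (fun i => Polynomial.C (g0 i) * Polynomial.X +
      Polynomial.C (g1 i)) : MvPolynomial (Fin n) k →ₐ[k] Polynomial k).toRingHom) =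
      eval (a • g0 + g1) := by
      apply MvPolynomial.ringHom_ext
      · intro r
        simp
      · intro i
        simp
        ring
    exact DFunLike.congr_fun this w
  set P : Polynomial k := aeval (fun i => Polynomial.C (f0 i) * Polynomial.X +
      Polynomial.C (f1 i)) w with hPd
  by_cases hroot : ∃ a, P.IsRoot a
  · obtain ⟨a, ha⟩ := hroot
    refine ⟨a, 1, Or.inr one_ne_zero, ?_⟩
    rw [one_smul, ← hP f0 f1 a]
    exact ha
  exfalso
  have hdeg : P.degree = 0 := by
    by_contra h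
    exact hroot (IsAlgClosed.exists_root P h)
  have hPc := Polynomial.eq_C_of_degree_eq_zero hdeg
  set R : Polynomial k := aeval (fun i => Polynomial.C (f1 i) * Polynomial.X +
      Polynomial.C (f0 i)) w with hRd
  have key : Polynomial.X * (R - Polynomial.C (P.coeff 0) * Polynomial.X ^ d) = 0 := by
    apply Polynomial.funext
    intro a
    by_cases ha : a = 0
    · simp [ha]
    have e1 : R.eval a = eval (a • f1 + f0) w := hP f1 f0 a
    have e2 : a • f1 + f0 = a • (a⁻¹ • f0 + f1) := by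
      rw [smul_add, smul_smul, mul_inv_cancel₀ ha, one_smul, add_comm]
    have e3 : eval (a⁻¹ • f0 + f1) w = P.coeff 0 := by
      rw [← hP f0 f1 a⁻¹, ← hPd, hPc]
      simp
    simp only [Polynomial.eval_mul, Polynomial.eval_X, Polynomial.eval_sub, Polynomial.eval_C,
      Polynomial.eval_pow, Polynomial.eval_zero]
    rw [e1, e2, eval_smul_of_hom hw, e3]
    ring
  have hR : R = Polynomial.C (P.coeff 0) * Polynomial.X ^ d :=
    sub_eq_zero.mp ((mul_eq_zero.mp key).resolve_left Polynomial.X_ne_zero)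
  have e4 : R.eval 0 = eval f0 w := by
    rw [hRd, hP f1 f0 0, zero_smul, zero_add]
  rw [hR] at e4
  simp only [Polynomial.eval_mul, Polynomial.eval_C, Polynomial.eval_pow, Polynomial.eval_X,
    zero_pow hd.ne', mul_zero] at e4
  exact h0 e4.symm

/-- One line of good points is enough. -/
theorem Dbl.dense_of_line [IsAlgClosed k] (h2 : (2 : k) ≠ 0) (hc : 0 < c) (D : Dbl k n c)
    (f0 f1 : Fin n → k) (H : ∀ a b : k, (a ≠ 0 ∨ b ≠ 0) → D.Good (a • f0 + b • f1)) :
    D.Dense := by
  classical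
  intro w hw F hF
  by_contra hwF
  have key : ∀ A : MvPolynomial (Fin n) k, (∀ y : Fin n → k, (y = 0 ∨ ¬ D.Good y) →
      eval y A = 0) → w ∣ A := by
    intro A hA
    have h1 : w ∣ F * A := by
      refine Dbl.null_lite hw fun z hz => ?_
      rw [map_mul]
      by_cases hb : z = 0 ∨ ¬ D.Good z
      · rw [hA z hb, mul_zero]
      · rw [not_or, not_not] at hb
        rw [hF z hb.1 hb.2 hz, zero_mul]
    exact (hw.prime.dvd_or_dvd h1).resolve_left hwF
  have hz0 : ∀ p, eval 0 (D.G p) = 0 := by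
    intro p
    have := eval_smul_of_hom (D.hG p) 0 0
    rw [zero_smul, zero_pow hc.ne', zero_mul] at this
    exact this
  have key2 : ∀ (p : Fin n × Fin n) (u N : MvPolynomial (Fin n) k),
      (∀ x, (∀ q, eval x (D.G' q) = 0) → eval x u = 0) →
      (∀ x x' y : Fin n → k, (∀ p, eval y (D.G p) = pr x x' p) →
        eval y N = eval x u * eval x' u + eval x u * eval x' u) → w ∣ D.G p * N := by
    intro p u N hu hN
    refine key _ fun y hy => ?_
    rw [map_mul]
    rcases hy with rfl | hy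
    · rw [hz0 p, zero_mul]
    by_cases hg : ∃ p, eval y (D.G p) ≠ 0
    · obtain ⟨x, hx, hx0⟩ : ∃ x, (x, y) ∈ D.S ∧ ∀ q, eval x (D.G' q) = 0 := by
        by_contra hcon
        push Not at hcon
        exact hy ⟨hg, fun x hx => hcon x hx⟩
      obtain ⟨x', -, he⟩ := D.sx hx hg
      rw [hN x x' y he, hu x hx0]
      ring
    · push Not at hg
      rw [hg p, zero_mul]
  have pick : ∀ y, D.Good y → ∃ (p : Fin n × Fin n) (N : MvPolynomial (Fin n) k) (e : ℕ),
      N.IsHomogeneous e ∧ w ∣ D.G p * N ∧ eval y (D.G p * N) ≠ 0 := by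
    intro y hy
    obtain ⟨p, hp⟩ := hy.1
    have hy0 : y ≠ 0 := by
      rintro rfl
      exact hp (hz0 p)
    obtain ⟨x, hx⟩ := D.ex hy0 hy.1
    obtain ⟨x', hx', he⟩ := D.sx hx hy.1
    obtain ⟨q, hq⟩ := hy.2 x hx
    obtain ⟨q', hq'⟩ := hy.2 x' hx'
    obtain ⟨u, hu, hu0, hux, hux'⟩ : ∃ u : MvPolynomial (Fin n) k, u.IsHomogeneous c ∧
        (∀ x, (∀ q, eval x (D.G' q) = 0) → eval x u = 0) ∧ eval x u ≠ 0 ∧ eval x' u ≠ 0 := by
      by_cases h3 : eval x' (D.G' q) = 0
      · by_cases h4 : eval x (D.G' q') = 0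
        · exact ⟨D.G' q + D.G' q', (D.hG' q).add (D.hG' q'),
            fun z hz => by rw [map_add, hz q, hz q', add_zero],
            by rwa [map_add, h4, add_zero], by rwa [map_add, h3, zero_add]⟩
        · exact ⟨D.G' q', D.hG' q', fun z hz => hz q', h4, hq'⟩
      · exact ⟨D.G' q, D.hG' q, fun z hz => hz q, hq, h3⟩
    obtain ⟨N, hN, hval⟩ := D.exists_norm h2 hu hu
    refine ⟨p, N, _, hN, key2 p u N hu0 hval, ?_⟩
    rw [map_mul, hval x x' y he, ← two_mul]
    exact mul_ne_zero hp (mul_ne_zero h2 (mul_ne_zero hux hux'))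
  have hk : Infinite k := IsAlgClosed.instInfinite
  obtain ⟨e, he, hepos⟩ : ∃ e, w.IsHomogeneous e ∧ 0 < e := by
    obtain ⟨p, N, e1, hN, ⟨r, hr⟩, hne⟩ := pick _ (H 1 0 (Or.inl one_ne_zero))
    have h3 := (D.hG p).mul hN
    have h4 : D.G p * N ≠ 0 := by
      intro h
      rw [h, map_zero] at hne
      exact hne rfl
    rw [hr] at h3 h4
    obtain ⟨a, b, ha, -, -⟩ := hom_factor h3 h4
    refine ⟨a, ha, Nat.pos_of_ne_zero ?_⟩
    rintro rfl
    have h5 := ha.totalDegree hw.ne_zero
    apply hw.not_isUnit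
    rw [MvPolynomial.isUnit_iff_totalDegree_of_isReduced]
    refine ⟨?_, h5⟩
    have h6 := totalDegree_eq_zero_iff_eq_C.mp h5
    refine isUnit_iff_ne_zero.mpr fun h7 => hw.ne_zero ?_
    rw [h6, h7, C_0]
  obtain ⟨a, b, hab, hz⟩ := exists_zero_on_line he hepos f0 f1
  obtain ⟨p, N, e1, hN, ⟨r, hr⟩, hne⟩ := pick _ (H a b hab)
  rw [hr, map_mul, hz, zero_mul] at hne
  exact hne rfl

end Pool.Agent.Helper47.NI
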